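import Pool.Agent.H27.AP.All

/-!
# All but `O(x / (log x) ^ (11/10))` of the orders up to `x` are prime powers
-/

set_option autoImplicit false

namespace Pool.Agent.Results.MP_4b9833_co.AlmostAll

open Pool.Agent.H27.ADS

/-- **The number of `n ≤ x` which are orders of abelian affine difference sets but not prime powers
is `O(x / (log x) ^ (11/10))`.** -/
theorem result : ∃ C : ℝ, 0 < C ∧ ∀ x : ℕ, 2 ≤ x →
    ({n : ℕ | n ≤ x ∧ IsOrder n ∧ ¬ IsPrimePow n}.ncard : ℝ) ≤
      C * (x / Real.log x ^ (11 / 10 : ℝ)) :=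
  Pool.Agent.H27.AP.main_all

end Pool.Agent.Results.MP_4b9833_co.AlmostAll
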