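import Pool.Agent.H99.ADS.Table

/-!
# Excluded pairs of prime divisors for abelian affine difference sets
-/

set_option autoImplicit false

namespace Pool.Agent.Results.MP_4b9833_co.ExcludedPairs

open Pool.Agent.H99.ADS

/-- The order of an abelian affine difference set is not divisible by `q * p` for distinct primes
`q`, `p` satisfying the criterion `Excluded q p`; the pairs of `table` satisfy it. -/
theorem result :
    (∀ n q p : ℕ, Order n → q.Prime → p.Prime → q ≠ p → Excluded q p → ¬ q * p ∣ n) ∧
    (∀ r ∈ table, ∀ p ∈ r.2, r.1.Prime ∧ p.Prime ∧ r.1 ≠ p ∧ Excluded r.1 p) := by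
  refine ⟨?_, table_excluded⟩
  intro n q p h hq hp hqp hE hd
  obtain ⟨G, _, _, _, N, D, hD⟩ := h
  exact not_excluded hD.isADS hq hp hqp hE hd

end Pool.Agent.Results.MP_4b9833_co.ExcludedPairs
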