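import Pool.Agent.H27.ADS.Struct

/-!
# Prime divisors of a nonsquare order congruent to `1` modulo `4`
-/

set_option autoImplicit false

namespace Pool.Agent.Results.MP_4b9833_co.OneModFour

open Pool.Agent.H27.ADS

/-- Let `n = 1` modulo `4` be the order of an abelian affine difference set, `n` not a perfect
square.  Then every prime divisor of `n` is `1` modulo `4`, and if moreover the exact power of
two dividing `n - 1` has odd exponent, then every prime divisor of `n` is `1` modulo `8`. -/
theorem result : ∀ n : ℕ, IsOrder n → ¬ IsSquare n → n % 4 = 1 → ∀ p : ℕ, p.Prime → p ∣ n →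
    p % 4 = 1 ∧ ∀ k m : ℕ, k % 2 = 1 → m % 2 = 1 → n - 1 = 2 ^ k * m → p % 8 = 1 :=
  fun _ h hns hmod _ hp hpn => ⟨h.one_mod_four_case hns hmod hp hpn,
    fun _ _ hk hm hkm => h.one_mod_eight_case hns hmod hk hm hkm hp hpn⟩

end Pool.Agent.Results.MP_4b9833_co.OneModFour
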