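import Pool.Agent.H27.ADS.Struct

/-!
# Prime divisors of an order congruent to `3` modulo `4`
-/

set_option autoImplicit false

namespace Pool.Agent.Results.MP_4b9833_co.ThreeModFour

open Pool.Agent.H27.ADS

/-- Let `n = 3` modulo `4` be the order of an abelian affine difference set and let `2 ^ s` be
the exact power of two dividing `n + 1`.  Then every prime divisor of `n` is congruent to `1` or
to `2 ^ s - 1` modulo `2 ^ (s + 1)`. -/
theorem result : ∀ n : ℕ, IsOrder n → n % 4 = 3 → ∀ s m : ℕ, m % 2 = 1 → n + 1 = 2 ^ s * m →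
    ∀ p : ℕ, p.Prime → p ∣ n → p % 2 ^ (s + 1) = 1 ∨ p % 2 ^ (s + 1) = 2 ^ s - 1 :=
  fun _ h hmod _ _ hm hsm _ hp hpn => h.three_mod_four_case hmod hm hsm hp hpn

end Pool.Agent.Results.MP_4b9833_co.ThreeModFour
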